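import Pool.Agent.TH280.DH.Stm

/-! A harmonic majorant of `|Re G| ^ p` on the disc is at least the mean over the circle at `0`. -/

set_option autoImplicit false

namespace Pool.Agent.TH147.DH

open Complex Polynomial Filter Topology InnerProductSpace MeasureTheory
open Pool.Agent.TH280.DH

/-- the isometry between `ℂ` and `ℝ²` -/
noncomputable def iso : ℂ ≃ₗᵢ[ℝ] E2 := Complex.orthonormalBasisOneI.repr

theorem cz_iso (z : ℂ) : cz (iso z) = z := by
  unfold cz iso
  simp [Complex.orthonormalBasisOneI_repr_apply]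

/-- the Laplacian and isometries -/
theorem laplacian_comp (g : E2 → ℝ) (z : ℂ) :
    (Laplacian.laplacian (fun w => g (iso w))) z = (Laplacian.laplacian g) (iso z) := by
  rw [congrFun (laplacian_eq_iteratedFDeriv_orthonormalBasis (fun w => g (iso w))
    Complex.orthonormalBasisOneI) z,
    congrFun (laplacian_eq_iteratedFDeriv_orthonormalBasis g
    (Complex.orthonormalBasisOneI.map iso)) (iso z)]
  refine Finset.sum_congr rfl fun i _ => ?_
  have h : iteratedFDeriv ℝ 2 (g ∘ iso) z =
      (iteratedFDeriv ℝ 2 g (iso z)).compContinuousLinearMap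
        fun _ => (iso.toContinuousLinearEquiv : ℂ →L[ℝ] E2) := by
    simp only [← iteratedFDerivWithin_univ]
    exact iso.toContinuousLinearEquiv.iteratedFDerivWithin_comp_right g uniqueDiffOn_univ
      (Set.mem_univ _) 2
  show iteratedFDeriv ℝ 2 (g ∘ iso) z _ = _
  rw [h, ContinuousMultilinearMap.compContinuousLinearMap_apply]
  congr 1
  funext j
  fin_cases j <;> simp

theorem harm_comp {g : E2 → ℝ} {z : ℂ} (h : HarmonicAt g (iso z)) :
    HarmonicAt (fun w => g (iso w)) z := by
  refine ⟨h.1.comp z iso.contDiff.contDiffAt, ?_⟩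
  have h1 : ∀ᶠ w in 𝓝 z, (Laplacian.laplacian g) (iso w) = 0 :=
    (iso.continuous.tendsto z).eventually h.2
  filter_upwards [h1] with w hw
  rw [laplacian_comp, hw]
  rfl

theorem main : S_MIN := by
  intro G p g hp hg hmaj
  have hf : Continuous fun z : ℂ => |(G.eval z).re| ^ p := by
    refine Continuous.rpow_const ?_ fun _ => Or.inr (by linarith)
    exact (Complex.continuous_re.comp G.continuous).abs
  have hr : ∀ r ∈ Set.Ioo (0 : ℝ) 1,
      Real.circleAverage (fun z : ℂ => |(G.eval z).re| ^ p) 0 r ≤ g 0 := by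
    intro r hr
    have hmem : ∀ w : ℂ, ‖w‖ ≤ r → iso w ∈ Metric.ball (0 : E2) 1 := by
      intro w hw
      rw [mem_ball_zero_iff, LinearIsometryEquiv.norm_map]
      linarith [hr.2]
    have hH : HarmonicOnNhd (fun w => g (iso w)) (Metric.closedBall (0 : ℂ) |r|) := by
      intro w hw
      rw [abs_of_pos hr.1, mem_closedBall_zero_iff] at hw
      exact harm_comp (hg _ (hmem w hw))
    have h1 := InnerProductSpace.HarmonicOnNhd.circleAverage_eq hH
    rw [map_zero] at h1
    rw [← h1]
    refine Real.circleAverage_mono hf.continuousOn.circleIntegrable' ?_ ?_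
    · exact (hH.continuousOn.mono Metric.sphere_subset_closedBall).circleIntegrable'
    · intro w hw
      rw [abs_of_pos hr.1, mem_sphere_zero_iff_norm] at hw
      have h2 := hmaj (iso w) (hmem w hw.le)
      rw [cz_iso] at h2
      exact h2
  have hc : Continuous fun r : ℝ => Real.circleAverage (fun z : ℂ => |(G.eval z).re| ^ p) 0 r := by
    have h1 : Continuous fun r : ℝ => ∫ θ in (0 : ℝ)..(2 * Real.pi),
        |(G.eval (circleMap 0 r θ)).re| ^ p := by
      refine intervalIntegral.continuous_parametric_intervalIntegral_of_continuous' ?_ _ _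
      refine hf.comp ?_
      unfold circleMap
      fun_prop
    exact h1.const_smul ((2 * Real.pi)⁻¹ : ℝ)
  have ht : Tendsto (fun r : ℝ => Real.circleAverage (fun z : ℂ => |(G.eval z).re| ^ p) 0 r)
      (𝓝[<] 1) (𝓝 (Real.circleAverage (fun z : ℂ => |(G.eval z).re| ^ p) 0 1)) :=
    (hc.tendsto 1).mono_left nhdsWithin_le_nhds
  refine le_of_tendsto ht ?_
  filter_upwards [Ioo_mem_nhdsLT (show (0 : ℝ) < 1 by norm_num)] with r h
  exact hr r h

end Pool.Agent.TH147.DH
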